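import Pool.Agent.H70.Aff

namespace Pool.Agent.Results.MP_1004d8_al.Q1False

theorem result :
    (∀ ε : ℝ, 0 < ε → ∃ (G : Type) (_ : Group G) (_ : Finite G) (α : MulAut G) (g : G)
      (A : Equiv.Perm G), (∀ x, A x = g * α x) ∧ orderOf A = Nat.card G ∧ (commProb G : ℝ) < ε) ∧
    ¬ ∃ f : ℝ → ℝ, ∀ ρ ∈ Set.Ioc (0 : ℝ) 1, f ρ ∈ Set.Ioc (0 : ℝ) 1 ∧
      ∀ (G : Type) [Group G] [Finite G] (α : MulAut G) (g : G) (A : Equiv.Perm G),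
        (∀ x, A x = g * α x) → ρ * Nat.card G ≤ orderOf A → f ρ ≤ commProb G := by
  refine ⟨Pool.Agent.H70.Aff.main, fun ⟨f, hf⟩ => ?_⟩
  obtain ⟨h1, h2⟩ := hf 1 ⟨one_pos, le_rfl⟩
  obtain ⟨G, _, _, α, g, A, a, b, c⟩ := Pool.Agent.H70.Aff.main _ h1.1
  exact absurd (h2 G α g A a (by simp [b])) (not_le.2 c)

end Pool.Agent.Results.MP_1004d8_al.Q1False
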